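import Pool.Agent.Helper61.SS.Extra

/-!
# Semisimplicity of the projective tensor product with a C*-algebra

`A` is a C*-algebra, not necessarily unital.  A Banach algebra is a complete normed algebra over `ℂ`, not
necessarily unital.  `Semisimple`, `AP`, `IsProj` (the completed projective tensor product, with its
product) and the projective norm `pn` are defined in `Pool.Agent.Helper61.SS.Defs`; `HasProj` (the
projective tensor product exists), `ProjSemisimple` (it is semisimple) and `CPAP` (the completely
positive approximation property, that is, nuclearity) in `Pool.Agent.Helper61.SS.Extra`.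
-/

set_option autoImplicit false

namespace Pool.Agent.Results.MP_552bae_an.NuclearAndAP

open Pool.Agent Pool.Agent.Helper61.SS

universe u

/-- Let `A` be a C*-algebra.  The following are equivalent: `A` has the approximation property; the
projective tensor product of `A` with every semisimple Banach algebra is semisimple; the projective tensor
product of `A` with every commutative semisimple Banach algebra is semisimple.  In particular, if `A` is
nuclear (has the completely positive approximation property) and `B` is a C*-algebra, then their projective
tensor product is semisimple.  The completed projective tensor product of `A` with every Banach algebra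
exists. -/
theorem result (A : Type u) [NonUnitalCStarAlgebra A] :
    [AP A,
      ∀ (B : Type u) [NonUnitalNormedRing B] [NormedSpace ℂ B] [IsScalarTower ℂ B B]
        [SMulCommClass ℂ B B] [CompleteSpace B], Semisimple B → ProjSemisimple A B,
      ∀ (B : Type u) [NonUnitalNormedCommRing B] [NormedSpace ℂ B] [IsScalarTower ℂ B B]
        [SMulCommClass ℂ B B] [CompleteSpace B], Semisimple B → ProjSemisimple A B].TFAE ∧
    (∀ [PartialOrder A] [StarOrderedRing A], CPAP A →
      ∀ (B : Type u) [NonUnitalCStarAlgebra B], ProjSemisimple A B) ∧
    (∀ (B : Type u) [NonUnitalNormedRing B] [NormedSpace ℂ B] [IsScalarTower ℂ B B]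
      [SMulCommClass ℂ B B] [CompleteSpace B], HasProj A B) := by
  have hmain : G_MAIN.{u} :=
    main_of Helper35.SS.gSLI Helper74.SS.gSR2 Helper35.SS.gEXI Helper44.SS.conv
  obtain ⟨h1, h2, h3⟩ := hmain A
  refine ⟨?_, ?_, h3⟩
  · tfae_have 1 → 2 := fun hA B _ _ _ _ _ hB C _ _ _ _ _ j hj => h1 hA B hB C j hj
    tfae_have 2 → 3 := fun h B _ _ _ _ _ hB C _ _ _ _ _ j hj => h B hB C j hj
    tfae_have 3 → 1 := by
      intro h
      by_contra hA
      obtain ⟨B, _, _, _, _, _, hB, hC⟩ := h2 hA
      obtain ⟨C, _, _, _, _, _, j, hj⟩ := h3 B
      exact hC C j hj (h B hB C j hj)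
    tfae_finish
  · intro _ _ hA B _ C _ _ _ _ _ j hj
    exact semisimple_of_AP hj (cstar_semisimple B) (Or.inl (cpap_ap A hA))

end Pool.Agent.Results.MP_552bae_an.NuclearAndAP
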