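import Pool.Agent.Helper60.GT.Pair
import Pool.Agent.Helper61.SS.Bridge

/-!
# Semisimplicity of projective tensor products with a C*-algebra
-/

namespace Pool.Agent.Results.MP_552bae_an.ProjRadical

open Pool.Agent.Helper60.PT Pool.Agent.Helper60.GT

universe u v w

/-- The projective tensor product of `A` and `B` exists as a Banach algebra. -/
def HasProj (A : Type u) (B : Type v) [NonUnitalNormedRing A] [NormedSpace ℂ A]
    [NonUnitalNormedRing B] [NormedSpace ℂ B] : Prop :=
  ∃ (C : Type (max u v)) (_ : NonUnitalNormedRing C) (_ : NormedSpace ℂ C)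
    (_ : IsScalarTower ℂ C C) (_ : SMulCommClass ℂ C C) (_ : CompleteSpace C)
    (ι : A →ₗ[ℂ] B →ₗ[ℂ] C), IsProj ι

/-- All slices of `u` by functionals on `A` are in the radical of `B`. The slice map of the functional
`φ` is the bounded operator `S` with `S (ι a b) = φ a • b`; it is unique because the span of the
`ι a b` is dense. -/
def SlicesInRad {A : Type u} {B : Type v} {C : Type w} [NonUnitalNormedRing A] [NormedSpace ℂ A]
    [NonUnitalNormedRing B] [NormedSpace ℂ B] [IsScalarTower ℂ B B] [SMulCommClass ℂ B B]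
    [NonUnitalNormedRing C] [NormedSpace ℂ C] [IsScalarTower ℂ C C] [SMulCommClass ℂ C C]
    (ι : A →ₗ[ℂ] B →ₗ[ℂ] C) (u : C) : Prop :=
  ∀ (φ : A →L[ℂ] ℂ) (S : C →L[ℂ] B), (∀ a b, S (ι a b) = φ a • b) → InRad (S u)

/-- `B` is, as a Banach space, isomorphic to a complemented subspace of a C*-algebra. -/
def ComplInCStar (B : Type v) [NormedAddCommGroup B] [NormedSpace ℂ B] : Prop :=
  ∃ (D : Type v) (_ : NonUnitalCStarAlgebra D) (i : B →L[ℂ] D) (p : D →L[ℂ] B), ∀ b, p (i b) = b

/-- For a C*-algebra `A` and a Banach algebra `B`, with `C` their projective tensor product: slices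
of radical elements are radical, and conversely if `B` is commutative; `C` is semisimple if `B` is
and `B` has the approximation property or is complemented in a C*-algebra. -/
def Main : Prop :=
  ∀ (A : Type u) (B : Type v) (C : Type w) [NonUnitalCStarAlgebra A]
    [NonUnitalNormedRing B] [NormedSpace ℂ B] [IsScalarTower ℂ B B] [SMulCommClass ℂ B B]
    [CompleteSpace B]
    [NonUnitalNormedRing C] [NormedSpace ℂ C] [IsScalarTower ℂ C C] [SMulCommClass ℂ C C]
    [CompleteSpace C] (ι : A →ₗ[ℂ] B →ₗ[ℂ] C), IsProj ι →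
    (∀ u : C, InRad u → SlicesInRad ι u) ∧
    ((∀ b b' : B, b * b' = b' * b) → ∀ u : C, InRad u ↔ SlicesInRad ι u) ∧
    (HasAP B ∨ ComplInCStar B → Semisimple B → Semisimple C)

/-- The special case of two C*-algebras: Q1, without nuclearity. -/
def Pairs : Prop :=
  ∀ (A₁ : Type u) (A₂ : Type v) [NonUnitalCStarAlgebra A₁] [NonUnitalCStarAlgebra A₂],
    HasProj A₁ A₂ ∧
    ∀ (C : Type w) [NonUnitalNormedRing C] [NormedSpace ℂ C] [IsScalarTower ℂ C C]
      [SMulCommClass ℂ C C] [CompleteSpace C] (ι : A₁ →ₗ[ℂ] A₂ →ₗ[ℂ] C), IsProj ι → Semisimple C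

theorem result : Main.{u, v, w} ∧ Pairs.{u, v, w} := by
  have hm : Main.{u, v, w} := by
    intro A B C _ _ _ _ _ _ _ _ _ _ _ ι h
    have h1 : ∀ u : C, InRad u → SlicesInRad ι u := fun u hu φ S hS => slice_rad h u hu φ S hS
    refine ⟨h1, fun hc u => ⟨h1 u, fun hu => ?_⟩, fun hAB hB => ?_⟩
    · exact Pool.Agent.Helper61.SS.inRad_of_slices hc h u hu
    · rcases hAB with hB' | ⟨D, _, i, p, hip⟩
      · exact semisimple_of_hasAP h (Or.inr hB') hB
      · exact semisimple_compl h i p hip hB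
  refine ⟨hm, ?_⟩
  intro A₁ A₂ _ _
  refine ⟨⟨PTC A₁ A₂, inferInstance, inferInstance, inferInstance, inferInstance, inferInstance,
    iot A₁ A₂, isProj_iot A₁ A₂⟩, ?_⟩
  intro C _ _ _ _ _ ι h
  exact (hm A₁ A₂ C ι h).2.2 (Or.inr ⟨A₂, inferInstance, ContinuousLinearMap.id ℂ A₂,
    ContinuousLinearMap.id ℂ A₂, fun _ => rfl⟩) (semisimple_cstar A₂)

end Pool.Agent.Results.MP_552bae_an.ProjRadical
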